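import Pool.Agent.Q264.TD.Main

/-!
# MP_d046ed_co: the `t`-dimension of divisibility on `(α n, n]`

`dim_t (Div ((α n, n])) ~ c log n` with `c = 1 / log t`, for all `0 < α < 1` and `t ≥ 2`.
-/

namespace Pool.Agent.Results.MP_d046ed_co.OneOverLogT

open Filter Topology Pool.Agent.Q264.TD

theorem result (α : ℝ) (hα : 0 < α) (hα1 : α < 1) (t : ℕ) (ht : 2 ≤ t) :
    0 < 1 / Real.log t ∧
      Tendsto (fun n : ℕ => (tdim α t n : ℝ) / ((1 / Real.log t) * Real.log n)) atTop (𝓝 1) := by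
  have htr : (2 : ℝ) ≤ t := by exact_mod_cast ht
  exact ⟨one_div_pos.mpr (Real.log_pos (by linarith)), main α hα hα1 t ht⟩

end Pool.Agent.Results.MP_d046ed_co.OneOverLogT
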